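import Pool.Agent.Y678.NA.P4

/-!
# Project NP: global assembly for paths
-/

set_option autoImplicit false

open Set Filter Topology Metric Function MeasureTheory
open scoped Manifold ContDiff

noncomputable section

namespace Pool.Agent.Y678.NA

open Pool.Agent.Y522 Pool.Agent.Y522.NA Pool.Agent.Y306.NAG

/-- the cutoff in time -/
def aa (t : ℝ) : ℝ := min 1 (max 0 (16 * |t - 1 / 2| - 6))

theorem aa_cont : Continuous aa := by
  unfold aa
  fun_prop

theorem aa_nonneg (t : ℝ) : 0 ≤ aa t := le_min zero_le_one (le_max_left _ _)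

theorem aa_le (t : ℝ) : aa t ≤ 1 := min_le_left _ _

theorem aa_zero {t : ℝ} (h : |t - 1 / 2| ≤ 3 / 8) : aa t = 0 := by
  unfold aa
  rw [max_eq_left (by linarith), min_eq_right zero_le_one]

theorem aa_one {t : ℝ} (h : 7 / 16 ≤ |t - 1 / 2|) : aa t = 1 := by
  unfold aa
  exact min_eq_left (le_max_of_le_right (by linarith))

/-- outside the interval of blending -/
theorem side {n q K : ℕ} {X Y : Type} [TopologicalSpace X] [ChartedSpace (E n) X]
    [TopologicalSpace Y] [ChartedSpace (E n) Y] {e : Y → E q} {π : E q → Y}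
    (hT : Tub n q Y e π) {f : ℝ → X → Y} {A : Fin K → E n → X} {τ : Fin K → X → E n}
    {χ : Fin K → X → ℝ} {c t₀ : ℝ} (h1 : ∀ᶠ t in 𝓝 t₀, aa t = 1) (h2 : ∀ᶠ t in 𝓝 t₀, f t = f t₀)
    {A₀ : E n → X} {x : X} (hA : A₀ 0 = x) (hA₀ : LD n A₀ 0) (hf : ∀ x, LD n (f t₀) x) :
    C1At n q (GG aa n q K f e A τ χ c) t₀ x ∧
      LD n (fun x => π (GG aa n q K f e A τ χ c t₀ x)) x := by
  have h3 : ∀ t, aa t = 1 → f t = f t₀ → ∀ x, GG aa n q K f e A τ χ c t x = e (f t₀ x) := by
    intro t ht ht' x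
    unfold GG
    rw [ht, ht', sub_self, zero_smul, one_smul, zero_add]
  refine ⟨?_, ?_⟩
  · rw [← hA]
    refine C1At_of_JCD (z := 0) ?_ hA₀
    refine (JCD.const (W := fun z => e (f t₀ (A₀ z))) ?_).congr ?_
    · filter_upwards [hA₀.eventually] with z hz
      refine contMDiffAt_iff_contDiffAt.1 ?_
      exact hT.smooth.contMDiffAt.comp z
        (LD.comp_fun (g := f t₀) (hf _) hz).contMDiffAt
    · filter_upwards [tendsto_fst'.eventually h1, tendsto_fst'.eventually h2] with w hw hw'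
      exact h3 w.1 hw hw' (A₀ w.2)
  · refine (hf x).congr (Eventually.of_forall fun x' => ?_)
    change π (GG aa n q K f e A τ χ c t₀ x') = f t₀ x'
    rw [h3 t₀ h1.self_of_nhds rfl x', hT.inv]

/-- The global assembly for paths. -/
theorem path (hL : StLocP) (hJ : StJC) (hE : StEnd) : StPath := by
  intro n κ
  obtain ⟨ε, hε, hLε⟩ := hL n (κ ^ 2)
  have hLC : LocPC n (κ ^ 2) ε := hLε
  refine ⟨ε, hε, ?_⟩
  intro X Y _ _ _ _ _ _ _ _ q e π hT f hfc hNA h14 h34 hLD0 hLD1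
  have he : Continuous e := hT.smooth.continuous
  obtain ⟨K, A, τ, r, χ, hC, hχs, hχ0, hχ1, hχt⟩ := exists_charts (n := n) (κ := κ) (X := X) (by
    intro x
    obtain ⟨A₀, B, hx, hA₀, hB, ρ, hρ, hl, hn⟩ := hNA 0 x
    obtain ⟨α, r₀, hr₀, h₀⟩ := exists_ch hA₀ hρ hl
    exact ⟨A₀, α, r₀, hx, h₀⟩)
  -- closeness
  have hcl : ∀ δ : ℝ, 0 < δ → ∃ c₂ : ℝ, 0 < c₂ ∧ ∀ c : ℝ, 0 < c → c ≤ c₂ → ∀ t x,
      ‖GG aa n q K f e A τ χ c t x - e (f t x)‖ ≤ δ := by
    intro δ hδ
    obtain ⟨c₂, hc₂, h1⟩ := close_P he hfc h14 h34 hC hχ0 hχ1 hχt δ hδ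
    refine ⟨c₂, hc₂, fun c hc hcc t x => ?_⟩
    have h2 := h1 c hc hcc t x
    have h3 : GG aa n q K f e A τ χ c t x - e (f t x) =
        (1 - aa t) • (FF n q K (f t) e A τ χ c x - e (f t x)) := by
      unfold GG
      rw [smul_sub, sub_smul, sub_smul, one_smul, one_smul]
      abel
    have h4 := aa_nonneg t
    have h5 := aa_le t
    rw [h3, norm_smul, Real.norm_eq_abs, abs_of_nonneg (by linarith)]
    nlinarith [norm_nonneg (FF n q K (f t) e A τ χ c x - e (f t x))]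
  -- the two cases
  have hlow : ∀ t : ℝ, t < 1 / 4 → ∀ᶠ t' in 𝓝 t, f t' = f t := by
    intro t ht
    filter_upwards [Iio_mem_nhds ht] with t' ht'
    rw [h14 t' (le_of_lt ht'), h14 t ht.le]
  have hhigh : ∀ t : ℝ, 3 / 4 < t → ∀ᶠ t' in 𝓝 t, f t' = f t := by
    intro t ht
    filter_upwards [Ioi_mem_nhds ht] with t' ht'
    rw [h34 t' (le_of_lt ht'), h34 t ht.le]
  have hcase : ∀ (t₀ : ℝ) (x : X), (∀ᶠ t in 𝓝 t₀, aa t = 0) ∨
      ((∀ᶠ t in 𝓝 t₀, f t = f t₀) ∧ LD n (f t₀) x) := by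
    intro t₀ x
    rcases lt_or_ge |t₀ - 1 / 2| (3 / 8) with h | h
    · left
      have h1 : ContinuousAt (fun t : ℝ => |t - 1 / 2|) t₀ := by
        have : Continuous (fun t : ℝ => |t - 1 / 2|) := by fun_prop
        exact this.continuousAt
      filter_upwards [h1.eventually_lt continuousAt_const h] with t ht
      exact aa_zero ht.le
    · right
      rcases le_abs.1 h with h1 | h1
      · refine ⟨hhigh t₀ (by linarith), ?_⟩
        rw [h34 t₀ (by linarith)]
        exact hLD1 x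
      · refine ⟨hlow t₀ (by linarith), ?_⟩
        rw [h14 t₀ (by linarith)]
        exact hLD0 x
  have hloc := fun p : ℝ × X => locX hLC hJ hE hT hfc hC hχs hχ0 hχ1 hχt aa_cont aa_nonneg aa_le
    hcl p.1 p.2 (hNA p.1 p.2) (hcase p.1 p.2)
  choose U hU c₀ hc₀ hloc using hloc
  have hK : IsCompact (Icc (0 : ℝ) 1 ×ˢ (univ : Set X)) := isCompact_Icc.prod isCompact_univ
  obtain ⟨s, -, hs⟩ := hK.elim_nhds_subcover U (fun p _ => hU p)
  obtain ⟨c₁, hc₁, hc₁s⟩ := exists_min (fun j : Fin s.card => c₀ (s.equivFin.symm j : ℝ × X))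
    (fun j => hc₀ _)
  -- the tube
  set S : Set (E q) := {w | ∀ᶠ w' in 𝓝 w, ContMDiffAt (𝓡 q) (𝓡 n) ∞ π w'} with hS
  have hSo : IsOpen S := isOpen_setOfPred_eventually_nhds
  have hKc : IsCompact ((fun w : ℝ × X => e (f w.1 w.2)) '' (Icc (0 : ℝ) 1 ×ˢ (univ : Set X))) :=
    hK.image (he.comp hfc)
  obtain ⟨δ, hδ, hδS⟩ := hKc.exists_thickening_subset_open hSo (by
    rintro _ ⟨w, -, rfl⟩
    exact hT.retr _)
  obtain ⟨c₂, hc₂, hclose⟩ := hcl (δ / 2) (half_pos hδ)
  set c : ℝ := min c₁ c₂ with hc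
  have hc0 : 0 < c := lt_min hc₁ hc₂
  -- the local statement everywhere
  have hcases : ∀ t : ℝ, t < 0 ∨ t ∈ Icc (0 : ℝ) 1 ∨ 1 < t := by
    intro t
    rcases lt_or_ge t 0 with h | h
    · exact Or.inl h
    · rcases le_or_gt t 1 with h' | h'
      · exact Or.inr (Or.inl ⟨h, h'⟩)
      · exact Or.inr (Or.inr h')
  have hall : ∀ (t : ℝ) (x : X), C1At n q (GG aa n q K f e A τ χ c) t x ∧
      LD n (fun x => π (GG aa n q K f e A τ χ c t x)) x := by
    intro t x
    obtain ⟨A₀, B, hx, hA₀, -⟩ := hNA 0 x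
    rcases hcases t with ht | ht | ht
    · refine side hT ?_ (hlow t (by linarith)) hx hA₀ ?_
      · filter_upwards [Iio_mem_nhds ht] with t' ht'
        refine aa_one (le_abs.2 (Or.inr ?_))
        have : t' < 0 := ht'
        linarith
      · intro x
        rw [h14 t (by linarith)]
        exact hLD0 x
    · have hx' : ((t, x) : ℝ × X) ∈ ⋃ p ∈ s, U p := hs ⟨ht, mem_univ _⟩
      simp only [mem_iUnion, exists_prop] at hx'
      obtain ⟨p, hp, hpx⟩ := hx'
      refine hloc p (t, x) hpx c hc0 ?_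
      have h1 := hc₁s (s.equivFin ⟨p, hp⟩)
      simp only [Equiv.symm_apply_apply] at h1
      exact (min_le_left _ _).trans h1
    · refine side hT ?_ (hhigh t (by linarith)) hx hA₀ ?_
      · filter_upwards [Ioi_mem_nhds ht] with t' ht'
        refine aa_one (le_abs.2 (Or.inl ?_))
        have : 1 < t' := ht'
        linarith
      · intro x
        rw [h34 t (by linarith)]
        exact hLD1 x
  refine ⟨GG aa n q K f e A τ χ c, fun t x => (hall t x).1, ?_, fun t x => (hall t x).2, ?_, ?_⟩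
  · intro t x
    have h1 : ∃ t' ∈ Icc (0 : ℝ) 1, f t' = f t := by
      rcases hcases t with ht | ht | ht
      · exact ⟨0, ⟨le_rfl, zero_le_one⟩, (h14 t (by linarith)).symm⟩
      · exact ⟨t, ht, rfl⟩
      · exact ⟨1, ⟨zero_le_one, le_rfl⟩, (h34 t (by linarith)).symm⟩
    obtain ⟨t', ht', hft⟩ := h1
    have h2 : GG aa n q K f e A τ χ c t x ∈ S := by
      apply hδS
      rw [mem_thickening_iff]
      refine ⟨e (f t' x), ⟨(t', x), ⟨ht', mem_univ _⟩, rfl⟩, ?_⟩
      rw [hft, dist_eq_norm]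
      have h3 := hclose c hc0 (min_le_right _ _) t x
      linarith
    exact h2
  · intro t ht x
    unfold GG
    rw [aa_one (le_abs.2 (Or.inr (by linarith))), sub_self, zero_smul, one_smul, zero_add,
      h14 t (by linarith)]
  · intro t ht x
    unfold GG
    rw [aa_one (le_abs.2 (Or.inl (by linarith))), sub_self, zero_smul, one_smul, zero_add,
      h34 t (by linarith)]

end Pool.Agent.Y678.NA
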