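import Pool.Agent.Y522.NA.StmP
import Pool.Agent.Y306.NA.Glob

/-!
# Project NP, the assembly for paths: calculus lemmas
-/

set_option autoImplicit false

open Set Filter Topology Metric Function MeasureTheory
open scoped Manifold ContDiff

noncomputable section

namespace Pool.Agent.Y678.NA

open Pool.Agent.Y522 Pool.Agent.Y522.NA

/-- near `(t, z)` the map is a continuous path of `C¹` maps, smooth in the space variable -/
def JCD {n q : ℕ} (F : ℝ → E n → E q) (t : ℝ) (z : E n) : Prop :=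
  (∀ᶠ w in 𝓝 (t, z), ContDiffAt ℝ ∞ (F w.1) w.2) ∧
    ContinuousAt (fun w : ℝ × E n => F w.1 w.2) (t, z) ∧
    ContinuousAt (fun w : ℝ × E n => fderiv ℝ (F w.1) w.2) (t, z)

section

variable {n q : ℕ} {F F' : ℝ → E n → E q} {t : ℝ} {z : E n}

theorem tendsto_snd' : Tendsto (fun w : ℝ × E n => w.2) (𝓝 (t, z)) (𝓝 z) :=
  continuous_snd.continuousAt (x := (t, z))

theorem tendsto_fst' : Tendsto (fun w : ℝ × E n => w.1) (𝓝 (t, z)) (𝓝 t) :=
  continuous_fst.continuousAt (x := (t, z))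

theorem JCD.congr (h : JCD F t z) (he : ∀ᶠ w in 𝓝 (t, z), F' w.1 w.2 = F w.1 w.2) :
    JCD F' t z := by
  obtain ⟨h1, h2, h3⟩ := h
  have h4 : ∀ᶠ w in 𝓝 (t, z), F' w.1 =ᶠ[𝓝 w.2] F w.1 := by
    filter_upwards [he.eventually_nhds] with w hw
    have h5 : Tendsto (fun x : E n => ((w.1, x) : ℝ × E n)) (𝓝 w.2) (𝓝 w) := by
      have : Continuous (fun x : E n => ((w.1, x) : ℝ × E n)) := by fun_prop
      exact this.continuousAt (x := w.2)
    exact h5.eventually hw
  refine ⟨?_, ?_, ?_⟩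
  · filter_upwards [h1, h4] with w hw hw'
    exact hw.congr_of_eventuallyEq hw'
  · exact h2.congr (he.mono fun _ h => h.symm)
  · refine h3.congr ?_
    filter_upwards [h4] with w hw
    exact (Filter.EventuallyEq.fderiv_eq hw).symm

theorem JCD.const {W : E n → E q} (hW : ∀ᶠ z in 𝓝 z, ContDiffAt ℝ ∞ W z) :
    JCD (fun _ => W) t z := by
  have h1 : ContDiffAt ℝ ∞ W z := hW.self_of_nhds
  have h2 : ContinuousAt (fderiv ℝ W) z := (h1.fderiv_right (m := 0) (by simp)).continuousAt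
  refine ⟨tendsto_snd'.eventually hW, ?_, ?_⟩
  · exact ContinuousAt.comp (f := fun w : ℝ × E n => w.2) (x := (t, z)) h1.continuousAt
      continuous_snd.continuousAt
  · exact ContinuousAt.comp (f := fun w : ℝ × E n => w.2) (x := (t, z)) h2
      continuous_snd.continuousAt

theorem JCD.add (h : JCD F t z) (h' : JCD F' t z) : JCD (fun t z => F t z + F' t z) t z := by
  obtain ⟨h1, h2, h3⟩ := h
  obtain ⟨h1', h2', h3'⟩ := h'
  refine ⟨?_, h2.add h2', ?_⟩
  · filter_upwards [h1, h1'] with w hw hw'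
    exact hw.add hw'
  · refine (h3.add h3').congr ?_
    filter_upwards [h1, h1'] with w hw hw'
    exact (fderiv_fun_add (hw.differentiableAt (by simp)) (hw'.differentiableAt (by simp))).symm

theorem JCD.sum {K : ℕ} {F : Fin K → ℝ → E n → E q} (h : ∀ j, JCD (F j) t z) :
    JCD (fun t z => ∑ j, F j t z) t z := by
  classical
  have h1 : ∀ s : Finset (Fin K), JCD (fun t z => ∑ j ∈ s, F j t z) t z := by
    intro s
    induction s using Finset.induction_on with
    | empty =>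
      refine (JCD.const (W := fun _ => (0 : E q)) (t := t) (z := z)
        (Eventually.of_forall fun _ => contDiffAt_const)).congr ?_
      exact Eventually.of_forall fun w => by simp
    | insert a s ha ih =>
      refine ((h a).add ih).congr ?_
      exact Eventually.of_forall fun w => by simp [Finset.sum_insert ha]
  exact h1 Finset.univ

theorem JCD.smulχ (h : JCD F t z) {χ : E n → ℝ} (hχ : ∀ᶠ z in 𝓝 z, ContDiffAt ℝ ∞ χ z) :
    JCD (fun t z => χ z • F t z) t z := by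
  obtain ⟨h1, h2, h3⟩ := h
  have k1 : ContDiffAt ℝ ∞ χ z := hχ.self_of_nhds
  have k2 : ContinuousAt (fderiv ℝ χ) z := (k1.fderiv_right (m := 0) (by simp)).continuousAt
  have k3 : ContinuousAt (fun w : ℝ × E n => χ w.2) (t, z) :=
    ContinuousAt.comp (f := fun w : ℝ × E n => w.2) (x := (t, z)) k1.continuousAt
      continuous_snd.continuousAt
  have k4 : ContinuousAt (fun w : ℝ × E n => fderiv ℝ χ w.2) (t, z) :=
    ContinuousAt.comp (f := fun w : ℝ × E n => w.2) (x := (t, z)) k2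
      continuous_snd.continuousAt
  have k5 : ∀ᶠ w : ℝ × E n in 𝓝 (t, z), ContDiffAt ℝ ∞ χ w.2 := tendsto_snd'.eventually hχ
  refine ⟨?_, k3.smul h2, ?_⟩
  · filter_upwards [h1, k5] with w hw hw'
    exact hw'.smul hw
  · have h6 : ContinuousAt (fun w : ℝ × E n => χ w.2 • fderiv ℝ (F w.1) w.2 +
        (fderiv ℝ χ w.2).smulRight (F w.1 w.2)) (t, z) := by
      refine (k3.smul h3).add ?_
      exact ((ContinuousLinearMap.smulRightL ℝ (E n) (E q)).continuous₂.continuousAt).comp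
        (k4.prodMk h2)
    refine h6.congr ?_
    filter_upwards [h1, k5] with w hw hw'
    exact (fderiv_fun_smul (hw'.differentiableAt (by simp)) (hw.differentiableAt (by simp))).symm

theorem JCD.smula (h : JCD F t z) {a : ℝ → ℝ} (ha : Continuous a) :
    JCD (fun t z => a t • F t z) t z := by
  obtain ⟨h1, h2, h3⟩ := h
  have k3 : ContinuousAt (fun w : ℝ × E n => a w.1) (t, z) :=
    (ha.comp continuous_fst).continuousAt
  refine ⟨?_, k3.smul h2, ?_⟩
  · filter_upwards [h1] with w hw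
    exact hw.const_smul (a w.1)
  · refine (k3.smul h3).congr ?_
    filter_upwards [h1] with w hw
    exact (fderiv_fun_const_smul (hw.differentiableAt (by simp)) (a w.1)).symm

/-- from the local data to `C1At` -/
theorem C1At_of_JCD {X : Type} [TopologicalSpace X] [ChartedSpace (E n) X] {G : ℝ → X → E q}
    {A : E n → X} (h : JCD (fun t z => G t (A z)) t z) (hA : LD n A z) :
    C1At n q G t (A z) := by
  obtain ⟨h1, h2, h3⟩ := h
  have hT : Tendsto (fun w : ℝ × E n => ((w.1, w.2 + z) : ℝ × E n)) (𝓝 (t, 0)) (𝓝 (t, z)) := by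
    have h4 : Continuous (fun w : ℝ × E n => ((w.1, w.2 + z) : ℝ × E n)) := by fun_prop
    have h5 := h4.continuousAt (x := ((t, 0) : ℝ × E n))
    unfold ContinuousAt at h5
    simpa using h5
  refine ⟨fun v => A (v + z), by simp, ?_, ?_, ?_, ?_⟩
  · refine LD.comp_fun (g := A) ?_ (LD_add_const z 0)
    rwa [zero_add]
  · filter_upwards [hT.eventually h1] with w hw
    have h6 : ContDiffAt ℝ ∞ (fun v : E n => v + z) w.2 :=
      (contDiff_id.add contDiff_const).contDiffAt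
    exact ContDiffAt.comp (f := fun v : E n => v + z) w.2 hw h6
  · have h4 := h2.tendsto.comp hT
    unfold ContinuousAt
    simpa [Function.comp_def] using h4
  · have h4 := h3.tendsto.comp hT
    have h5 : (fun w : ℝ × E n => fderiv ℝ (fun v => G w.1 (A (v + z))) w.2) =
        fun w : ℝ × E n => fderiv ℝ (fun v => G w.1 (A v)) (w.2 + z) := by
      ext1 w
      exact fderiv_comp_add_right (f := fun v => G w.1 (A v)) z
    unfold ContinuousAt
    rw [h5]
    simpa [Function.comp_def] using h4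

end

/-- `C¹`-small perturbations of maps with invertible `D(Ψ ∘ W)` -/
theorem pert {n q : ℕ} {W : E n → E q} {Ψ : E q → E n} (hW : ∀ᶠ z in 𝓝 (0 : E n),
    ContDiffAt ℝ ∞ W z) (hΨ : ∀ᶠ w in 𝓝 (W 0), ContDiffAt ℝ ∞ Ψ w)
    (hLD : LD n (fun z => Ψ (W z)) 0) :
    ∃ δ : ℝ, 0 < δ ∧ ∃ ρ : ℝ, 0 < ρ ∧ ∀ (H : E n → E q) (z : E n), ‖z‖ < ρ →
      (∀ᶠ z' in 𝓝 z, ContDiffAt ℝ ∞ H z') → ‖H z - W z‖ ≤ δ →
      ‖fderiv ℝ H z - fderiv ℝ W z‖ ≤ δ → LD n (fun z => Ψ (H z)) z := by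
  have hW0 : ContDiffAt ℝ ∞ W 0 := hW.self_of_nhds
  have hΨ0 : ContDiffAt ℝ ∞ Ψ (W 0) := hΨ.self_of_nhds
  have cW : ContinuousAt (fderiv ℝ W) 0 := (hW0.fderiv_right (m := 0) (by simp)).continuousAt
  have cΨ : ContinuousAt (fderiv ℝ Ψ) (W 0) :=
    (hΨ0.fderiv_right (m := 0) (by simp)).continuousAt
  obtain ⟨L, hL⟩ := hLD.exists_equiv
  have hL' : (fderiv ℝ Ψ (W 0)).comp (fderiv ℝ W 0) = (L : E n →L[ℝ] E n) := by
    have h1 : HasFDerivAt (fun z => Ψ (W z)) ((fderiv ℝ Ψ (W 0)).comp (fderiv ℝ W 0)) 0 :=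
      (hΨ0.differentiableAt (by simp)).hasFDerivAt.comp (0 : E n)
        (hW0.differentiableAt (by simp)).hasFDerivAt
    exact h1.unique hL
  have h2 : ∀ᶠ p : E q × (E n →L[ℝ] E q) in 𝓝 (W 0, fderiv ℝ W 0),
      (∀ᶠ w in 𝓝 p.1, ContDiffAt ℝ ∞ Ψ w) ∧
      (fderiv ℝ Ψ p.1).comp p.2 ∈ range ((↑) : (E n ≃L[ℝ] E n) → (E n →L[ℝ] E n)) := by
    have c1 : ContinuousAt (fun p : E q × (E n →L[ℝ] E q) => fderiv ℝ Ψ p.1)
        (W 0, fderiv ℝ W 0) :=
      ContinuousAt.comp (f := fun p : E q × (E n →L[ℝ] E q) => p.1) (x := (W 0, fderiv ℝ W 0))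
        cΨ continuous_fst.continuousAt
    have c2 : ContinuousAt (fun p : E q × (E n →L[ℝ] E q) => (fderiv ℝ Ψ p.1).comp p.2)
        (W 0, fderiv ℝ W 0) := c1.clm_comp continuous_snd.continuousAt
    have c3 : ∀ᶠ p : E q × (E n →L[ℝ] E q) in 𝓝 (W 0, fderiv ℝ W 0),
        ∀ᶠ w in 𝓝 p.1, ContDiffAt ℝ ∞ Ψ w := by
      have : Tendsto (fun p : E q × (E n →L[ℝ] E q) => p.1) (𝓝 (W 0, fderiv ℝ W 0))
          (𝓝 (W 0)) := continuous_fst.continuousAt (x := (W 0, fderiv ℝ W 0))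
      exact this.eventually hΨ.eventually_nhds
    refine c3.and (c2.eventually_mem ?_)
    rw [hL']
    exact ContinuousLinearEquiv.nhds L
  obtain ⟨δ₀, hδ₀, h3⟩ := Metric.eventually_nhds_iff.1 h2
  have h4 : ∀ᶠ z in 𝓝 (0 : E n), ‖W z - W 0‖ < δ₀ / 2 ∧
      ‖fderiv ℝ W z - fderiv ℝ W 0‖ < δ₀ / 2 := by
    have a1 : ContinuousAt (fun z => ‖W z - W 0‖) 0 :=
      (hW0.continuousAt.sub continuousAt_const).norm
    have a2 : ContinuousAt (fun z => ‖fderiv ℝ W z - fderiv ℝ W 0‖) 0 :=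
      (cW.sub continuousAt_const).norm
    refine (a1.eventually_lt continuousAt_const ?_).and
      (a2.eventually_lt continuousAt_const ?_)
    · simpa using half_pos hδ₀
    · simpa using half_pos hδ₀
  obtain ⟨ρ, hρ, h5⟩ := Metric.eventually_nhds_iff.1 h4
  refine ⟨δ₀ / 4, by positivity, ρ, hρ, ?_⟩
  intro H z hz hH h6 h7
  obtain ⟨h8, h9⟩ := h5 (y := z) (by rwa [dist_zero_right])
  have hHz : ContDiffAt ℝ ∞ H z := hH.self_of_nhds
  have h10 : dist ((H z, fderiv ℝ H z) : E q × (E n →L[ℝ] E q)) (W 0, fderiv ℝ W 0) < δ₀ := by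
    rw [Prod.dist_eq]
    simp only [dist_eq_norm]
    refine max_lt ?_ ?_
    · calc ‖H z - W 0‖ = ‖(H z - W z) + (W z - W 0)‖ := by congr 1; abel
        _ ≤ ‖H z - W z‖ + ‖W z - W 0‖ := norm_add_le _ _
        _ < δ₀ := by linarith
    · calc ‖fderiv ℝ H z - fderiv ℝ W 0‖
          = ‖(fderiv ℝ H z - fderiv ℝ W z) + (fderiv ℝ W z - fderiv ℝ W 0)‖ := by
            congr 1; abel
        _ ≤ ‖fderiv ℝ H z - fderiv ℝ W z‖ + ‖fderiv ℝ W z - fderiv ℝ W 0‖ := norm_add_le _ _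
        _ < δ₀ := by linarith
  obtain ⟨h11, L', h12⟩ := h3 h10
  have h13 : ∀ᶠ z' in 𝓝 z, ContDiffAt ℝ ∞ (fun z => Ψ (H z)) z' := by
    filter_upwards [hH, hHz.continuousAt.tendsto.eventually h11] with z' a1 a2
    exact ContDiffAt.comp (f := H) z' a2 a1
  refine LD_of_contDiffAt h13 L' ?_
  rw [h12]
  exact (h11.self_of_nhds.differentiableAt (by simp)).hasFDerivAt.comp z
    (hHz.differentiableAt (by simp)).hasFDerivAt

end Pool.Agent.Y678.NA
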