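import Pool.Agent.Y678.NA.P1

/-!
# Project NP, the assembly for paths: uniform closeness and the local form of one term
-/

set_option autoImplicit false

open Set Filter Topology Metric Function MeasureTheory
open scoped Manifold ContDiff

noncomputable section

namespace Pool.Agent.Y678.NA

open Pool.Agent.Y522 Pool.Agent.Y522.NA Pool.Agent.Y306.NAG

section

variable {n : ℕ} {κ : ℝ} {X : Type} [MetricSpace X] [ChartedSpace (E n) X]

/-- a path which is constant near the ends is uniformly continuous in space -/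
theorem unif_path [CompactSpace X] {Y : Type} [TopologicalSpace Y] {q : ℕ} {e : Y → E q}
    (he : Continuous e) {f : ℝ → X → Y} (hf : Continuous (fun w : ℝ × X => f w.1 w.2))
    (h0 : ∀ t, t ≤ 1 / 4 → f t = f 0) (h1 : ∀ t, 3 / 4 ≤ t → f t = f 1) {δ : ℝ} (hδ : 0 < δ) :
    ∃ η : ℝ, 0 < η ∧ ∀ t x x', dist x x' < η → dist (e (f t x)) (e (f t x')) < δ := by
  have hc : Continuous (fun w : ℝ × X => e (f w.1 w.2)) := he.comp hf
  have hK : IsCompact (Icc (0 : ℝ) 1 ×ˢ (univ : Set X)) := isCompact_Icc.prod isCompact_univ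
  obtain ⟨η, hη, hηf⟩ := Metric.uniformContinuousOn_iff.1
    (hK.uniformContinuousOn_of_continuous hc.continuousOn) δ hδ
  refine ⟨η, hη, ?_⟩
  have key : ∀ t : ℝ, t ∈ Icc (0 : ℝ) 1 → ∀ x x', dist x x' < η →
      dist (e (f t x)) (e (f t x')) < δ := by
    intro t ht x x' hx
    refine hηf (t, x) ⟨ht, mem_univ _⟩ (t, x') ⟨ht, mem_univ _⟩ ?_
    rw [Prod.dist_eq]
    simp only [dist_self]
    exact max_lt hη hx
  intro t x x' hx
  rcases le_total t 0 with ht | ht
  · rw [h0 t (by linarith)]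
    exact key 0 ⟨le_rfl, zero_le_one⟩ x x' hx
  · rcases le_total t 1 with ht' | ht'
    · exact key t ⟨ht, ht'⟩ x x' hx
    · rw [h1 t (by linarith)]
      exact key 1 ⟨zero_le_one, le_rfl⟩ x x' hx

theorem close_P [CompactSpace X] {Y : Type} [TopologicalSpace Y] {q : ℕ} {e : Y → E q}
    (he : Continuous e) {f : ℝ → X → Y} (hf : Continuous (fun w : ℝ × X => f w.1 w.2))
    (h0 : ∀ t, t ≤ 1 / 4 → f t = f 0) (h1 : ∀ t, 3 / 4 ≤ t → f t = f 1)
    {K : ℕ} {A : Fin K → E n → X} {τ : Fin K → X → E n}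
    {r : Fin K → ℝ} (hC : ∀ j, Ch n κ (A j) (τ j) (r j)) {χ : Fin K → X → ℝ}
    (hχ0 : ∀ j x, 0 ≤ χ j x) (hχ1 : ∀ x, ∑ j, χ j x = 1)
    (hχt : ∀ j, tsupport (χ j) ⊆ A j '' ball 0 (r j / 2)) (δ : ℝ) (hδ : 0 < δ) :
    ∃ c₂ : ℝ, 0 < c₂ ∧ ∀ c : ℝ, 0 < c → c ≤ c₂ → ∀ t x,
      ‖FF n q K (f t) e A τ χ c x - e (f t x)‖ ≤ δ := by
  obtain ⟨η, hη, hηf⟩ := unif_path he hf h0 h1 hδ
  obtain ⟨m, hm, hmr⟩ := exists_min (fun j => r j / 2) (fun j => half_pos (hC j).pos)
  have hκ1 : 0 < |κ| + 1 := by positivity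
  refine ⟨min m (η / (2 * (|κ| + 1))), lt_min hm (by positivity), ?_⟩
  intro c hc hcc t x
  have hft : Continuous (f t) := by
    have h2 : Continuous (fun x : X => ((t, x) : ℝ × X)) := by fun_prop
    exact hf.comp h2
  have hcm : c ≤ m := hcc.trans (min_le_left _ _)
  have hcη : |κ| * c < η := by
    have h1 : c ≤ η / (2 * (|κ| + 1)) := hcc.trans (min_le_right _ _)
    rw [le_div_iff₀ (by positivity)] at h1
    nlinarith [abs_nonneg κ, mul_nonneg (abs_nonneg κ) hc.le]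
  have h1 : FF n q K (f t) e A τ χ c x - e (f t x) =
      ∑ j, χ j x • (TermX n q (f t) e (A j) (τ j) c x - e (f t x)) := by
    simp_rw [smul_sub, Finset.sum_sub_distrib, ← Finset.sum_smul, hχ1, one_smul]
    rfl
  rw [h1]
  calc ‖∑ j, χ j x • (TermX n q (f t) e (A j) (τ j) c x - e (f t x))‖
      ≤ ∑ j, ‖χ j x • (TermX n q (f t) e (A j) (τ j) c x - e (f t x))‖ := norm_sum_le _ _
    _ ≤ ∑ j, χ j x * δ := by
        refine Finset.sum_le_sum fun j _ => ?_
        rw [norm_smul, Real.norm_eq_abs, abs_of_nonneg (hχ0 j x)]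
        rcases eq_or_ne (χ j x) 0 with h0 | h0
        · rw [h0, zero_mul, zero_mul]
        · refine mul_le_mul_of_nonneg_left ?_ (hχ0 j x)
          have hx : x ∈ A j '' ball 0 (r j / 2) := hχt j (subset_tsupport _ h0)
          have hrp := (hC j).pos
          obtain ⟨h2, h3⟩ := (hC j).mem (by linarith) hx
          have h4 : ∀ s : E n, ‖s‖ ≤ 1 → ‖τ j x + c • s‖ < r j := fun s hs =>
            norm_add_smul_lt hc.le hs h2 (hcm.trans (hmr j)) (by linarith)
          refine avg ?_ ?_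
          · intro s hs
            have hs1 : ‖s‖ ≤ 1 := by simpa using hs
            refine ContinuousAt.continuousWithinAt ?_
            have h5 : ContinuousAt (A j) (τ j x + c • s) := (hC j).continuousAt (h4 s hs1)
            have h6 : ContinuousAt (fun s : E n => A j (τ j x + c • s)) s :=
              ContinuousAt.comp (f := fun s : E n => τ j x + c • s) h5 (by fun_prop)
            exact (he.comp hft).continuousAt.comp h6
          · intro s hs
            rw [← dist_eq_norm]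
            refine (hηf t _ _ ?_).le
            have h7 := ((hC j).lip _ _ (h4 s hs) (show ‖τ j x‖ < r j by linarith)).2
            rw [h3] at h7
            have h8 : ‖τ j x + c • s - τ j x‖ ≤ c := by
              rw [add_sub_cancel_left, norm_smul, Real.norm_eq_abs, abs_of_nonneg hc.le]
              exact mul_le_of_le_one_right hc.le hs
            calc dist (A j (τ j x + c • s)) x ≤ κ * ‖τ j x + c • s - τ j x‖ := h7
              _ ≤ |κ| * ‖τ j x + c • s - τ j x‖ :=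
                mul_le_mul_of_nonneg_right (le_abs_self κ) (norm_nonneg _)
              _ ≤ |κ| * c := mul_le_mul_of_nonneg_left h8 (abs_nonneg κ)
              _ < η := hcη
    _ = δ := by rw [← Finset.sum_mul, hχ1, one_mul]

/-- one term of the mollification in the coordinates around `A₀ 0` -/
theorem term_eqP {Y : Type} [TopologicalSpace Y] [ChartedSpace (E n) Y] {q : ℕ} {e : Y → E q}
    {f : ℝ → X → Y} (hf : Continuous (fun w : ℝ × X => f w.1 w.2)) {t₀ : ℝ}
    {A₀ A : E n → X} {τ₀ τ : X → E n} {r₀ r : ℝ} (h₀ : Ch n κ A₀ τ₀ r₀)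
    (h : Ch n κ A τ r) (hm : A₀ 0 ∈ A '' ball 0 r) {B : Y → E n} {b : E n → Y}
    (hbB : ∀ᶠ y in 𝓝 (f t₀ (A₀ 0)), b (B y) = y) :
    ∃ ρ : ℝ, 0 < ρ ∧ ∀ t : ℝ, |t - t₀| < ρ → ∀ z : E n, ‖z‖ < ρ → ∀ c : ℝ, 0 < c → c ≤ ρ →
      TermX n q (f t) e A τ c (A₀ z) = Term n q (fun z => B (f t (A₀ z))) (fun w => e (b w))
        (fun z => τ (A₀ z)) (fun w => τ₀ (A w)) c z := by
  have h00 : ‖(0 : E n)‖ < r₀ := by simpa using h₀.pos
  obtain ⟨h1, h2⟩ := h.mem le_rfl hm
  have hQ : ∀ᶠ p : ℝ × E n in 𝓝 (t₀, τ (A₀ 0)),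
      e (b (B (f p.1 (A₀ (τ₀ (A p.2)))))) = e (f p.1 (A p.2)) := by
    have h3 : ContinuousAt A (τ (A₀ 0)) := h.continuousAt h1
    have h4 : ∀ᶠ u in 𝓝 (τ (A₀ 0)), A u ∈ A₀ '' ball 0 r₀ := by
      refine h3.eventually_mem ?_
      rw [h2]
      exact (h₀.isOpen_image le_rfl).mem_nhds ⟨0, mem_ball_zero_iff.2 h00, rfl⟩
    have h4' : ∀ᶠ p : ℝ × E n in 𝓝 (t₀, τ (A₀ 0)), A p.2 ∈ A₀ '' ball 0 r₀ :=
      tendsto_snd'.eventually h4
    have h5 : ∀ᶠ p : ℝ × E n in 𝓝 (t₀, τ (A₀ 0)), b (B (f p.1 (A p.2))) = f p.1 (A p.2) := by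
      have h7 : ContinuousAt (fun p : ℝ × E n => f p.1 (A p.2)) (t₀, τ (A₀ 0)) := by
        have h8 : ContinuousAt (fun p : ℝ × E n => ((p.1, A p.2) : ℝ × X)) (t₀, τ (A₀ 0)) := by
          refine continuousAt_fst.prodMk ?_
          exact ContinuousAt.comp (f := fun p : ℝ × E n => p.2) (x := (t₀, τ (A₀ 0))) h3
            continuousAt_snd
        exact ContinuousAt.comp (f := fun p : ℝ × E n => ((p.1, A p.2) : ℝ × X))
          hf.continuousAt h8
      have h8 := h7.tendsto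
      simp only [h2] at h8
      exact h8.eventually hbB
    filter_upwards [h4', h5] with u hu hu'
    rw [h₀.right hu, hu']
  obtain ⟨η, hη, hηQ⟩ := Metric.eventually_nhds_iff.1 hQ
  have hTc : ContinuousAt (fun z => τ (A₀ z)) 0 := by
    have h3 := h.ldτ h1
    rw [h2] at h3
    exact h3.continuousAt.comp (h₀.continuousAt h00)
  obtain ⟨ρ, hρ, hρT⟩ := Metric.continuousAt_iff.1 hTc (η / 2) (half_pos hη)
  refine ⟨min ρ (η / 2), lt_min hρ (half_pos hη), ?_⟩
  intro t ht z hz c hc hcc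
  have ht1 : |t - t₀| < η := by
    have := lt_of_lt_of_le ht (min_le_right _ _)
    linarith
  have hz1 : ‖z‖ < ρ := lt_of_lt_of_le hz (min_le_left _ _)
  have hc1 : c ≤ η / 2 := hcc.trans (min_le_right _ _)
  have h3 := hρT (x := z) (by rwa [dist_zero_right])
  unfold TermX Term
  congr 1
  ext1 s
  by_cases hs : ‖s‖ < 1
  · congr 1
    symm
    refine hηQ (y := (t, τ (A₀ z) + c • s)) ?_
    have h4 : ‖c • s‖ ≤ c := by
      rw [norm_smul, Real.norm_eq_abs, abs_of_nonneg hc.le]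
      exact mul_le_of_le_one_right hc.le hs.le
    have h4' : ‖c • s‖ < η / 2 ∨ ‖c • s‖ ≤ η / 2 := Or.inr (h4.trans hc1)
    have h5 : dist (τ (A₀ z) + c • s) (τ (A₀ 0)) ≤ dist (τ (A₀ z)) (τ (A₀ 0)) + ‖c • s‖ := by
      rw [dist_eq_norm, dist_eq_norm]
      have : τ (A₀ z) + c • s - τ (A₀ 0) = (τ (A₀ z) - τ (A₀ 0)) + c • s := by abel
      rw [this]
      exact norm_add_le _ _
    rw [Prod.dist_eq]
    refine max_lt ?_ ?_
    · simpa [Real.dist_eq] using ht1
    · change dist (τ (A₀ z) + c • s) (τ (A₀ 0)) < η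
      linarith
  · rw [kr_zero (not_lt.1 hs), zero_smul, zero_smul]

end

end Pool.Agent.Y678.NA
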