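import Pool.Agent.Y678.NA.P2

/-!
# Project NP, the assembly for paths: blends with a local diffeomorphism
-/

set_option autoImplicit false

open Set Filter Topology Metric Function MeasureTheory
open scoped Manifold ContDiff

noncomputable section

namespace Pool.Agent.Y678.NA

open Pool.Agent.Y522 Pool.Agent.Y522.NA Pool.Agent.Y306.NAG

theorem end_loc (hE : StEnd) {n q K : ℕ} {κ : ℝ} {g : E n → E n} {E0 : E n → E q}
    {Ψ : E q → E n} {T S : Fin K → E n → E n} {y : Fin K → E n} {χ : Fin K → E n → ℝ}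
    (hg : LD n g 0) (cc : ∀ᶠ w in 𝓝 (g 0), ContDiffAt ℝ ∞ E0 w)
    (cd : ∀ᶠ w in 𝓝 (E0 (g 0)), ContDiffAt ℝ ∞ Ψ w)
    (ce : ∀ᶠ w in 𝓝 (g 0), Ψ (E0 w) = w) (cf : ∀ j, Trans n κ (T j) (S j) (y j))
    (cg : ∀ j, ∀ᶠ z in 𝓝 (0 : E n), ContDiffAt ℝ ∞ (χ j) z ∧ 0 ≤ χ j z)
    (ch : ∀ᶠ z in 𝓝 (0 : E n), ∑ j, χ j z = 1) :
    (∀ᶠ z in 𝓝 (0 : E n), ContDiffAt ℝ ∞ (fun z => E0 (g z)) z) ∧
    ∃ ρ c₀ : ℝ, 0 < ρ ∧ 0 < c₀ ∧ ∀ s : ℝ, 0 ≤ s → s ≤ 1 → ∀ z : E n, ‖z‖ < ρ →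
      ∀ c : ℝ, 0 < c → c ≤ c₀ →
        LD n (fun z => Ψ ((1 - s) • Fl n q K g E0 T S χ c z + s • E0 (g z))) z := by
  classical
  set W : E n → E q := fun z => E0 (g z) with hWd
  have hW : ∀ᶠ z in 𝓝 (0 : E n), ContDiffAt ℝ ∞ W z := by
    filter_upwards [hg.eventually, hg.continuousAt.tendsto.eventually cc] with z h1 h2
    exact ContDiffAt.comp (f := g) z h2 h1.contDiffAt
  refine ⟨hW, ?_⟩
  have hLD : LD n (fun z => Ψ (W z)) 0 := by
    refine hg.congr ?_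
    filter_upwards [hg.continuousAt.tendsto.eventually ce] with z h1
    exact h1
  obtain ⟨δ, hδ, ρ₁, hρ₁, hp⟩ := pert hW cd hLD
  -- the bound of the derivatives of the partition of unity
  set M : Fin K → ℝ := fun j => ‖fderiv ℝ (χ j) 0‖ + 1 with hM
  have hM0 : ∀ j, 0 ≤ M j := fun j => by positivity
  have hMs : 0 ≤ ∑ j, M j := Finset.sum_nonneg fun j _ => hM0 j
  have hMev : ∀ j, ∀ᶠ z in 𝓝 (0 : E n), ‖fderiv ℝ (χ j) z‖ < M j := by
    intro j
    have h1 : ContDiffAt ℝ ∞ (χ j) 0 := (cg j).self_of_nhds.1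
    have h2 : ContinuousAt (fderiv ℝ (χ j)) 0 :=
      (h1.fderiv_right (m := 0) (by simp)).continuousAt
    refine h2.norm.eventually_lt continuousAt_const ?_
    simp only [hM]
    linarith
  set δ' : ℝ := δ / (1 + ∑ j, M j) with hδ'
  have hδ'0 : 0 < δ' := by positivity
  have hEj := fun j => hE n κ q g E0 (T j) (S j) (y j) hg cc (cf j) δ' hδ'0
  choose ρj cj hρj hcj hEj using hEj
  obtain ⟨ρ₂, hρ₂, hρ₂j⟩ := exists_min ρj hρj
  obtain ⟨c₂, hc₂, hc₂j⟩ := exists_min cj hcj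
  have hev : ∀ᶠ z in 𝓝 (0 : E n), (∀ j, (ContDiffAt ℝ ∞ (χ j) z ∧ 0 ≤ χ j z) ∧
      ‖fderiv ℝ (χ j) z‖ < M j) ∧ ∑ j, χ j z = 1 ∧ ContDiffAt ℝ ∞ W z := by
    refine (eventually_all.2 fun j => (cg j).and (hMev j)).and (ch.and hW)
  obtain ⟨ρ₃, hρ₃, h3⟩ := Metric.eventually_nhds_iff.1 hev
  refine ⟨min ρ₁ (min ρ₂ ρ₃), c₂, lt_min hρ₁ (lt_min hρ₂ hρ₃), hc₂, ?_⟩
  intro s hs0 hs1 z hz c hc hcc
  have hz1 : ‖z‖ < ρ₁ := lt_of_lt_of_le hz (min_le_left _ _)
  have hz23 : ‖z‖ < min ρ₂ ρ₃ := lt_of_lt_of_le hz (min_le_right _ _)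
  have hnear : ∀ᶠ z' in 𝓝 z, ‖z'‖ < min ρ₂ ρ₃ :=
    continuous_norm.continuousAt.eventually_lt continuousAt_const hz23
  have key : ∀ z' : E n, ‖z'‖ < min ρ₂ ρ₃ → ((∀ j, (ContDiffAt ℝ ∞ (χ j) z' ∧ 0 ≤ χ j z') ∧
      ‖fderiv ℝ (χ j) z'‖ < M j) ∧ ∑ j, χ j z' = 1 ∧ ContDiffAt ℝ ∞ W z') ∧
      ∀ j, ContDiffAt ℝ ∞ (Term n q g E0 (T j) (S j) c) z' ∧
        ‖Term n q g E0 (T j) (S j) c z' - W z'‖ ≤ δ' ∧
        ‖fderiv ℝ (Term n q g E0 (T j) (S j) c) z' - fderiv ℝ W z'‖ ≤ δ' := by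
    intro z' hz'
    refine ⟨h3 (by rw [dist_zero_right]; exact lt_of_lt_of_le hz' (min_le_right _ _)), ?_⟩
    intro j
    exact hEj j z' (lt_of_lt_of_le hz' ((min_le_left _ _).trans (hρ₂j j))) c hc
      (hcc.trans (hc₂j j))
  -- the difference
  have hdiff : ∀ z' : E n, ‖z'‖ < min ρ₂ ρ₃ →
      (1 - s) • Fl n q K g E0 T S χ c z' + s • W z' = W z' +
        (1 - s) • ∑ j, χ j z' • (Term n q g E0 (T j) (S j) c z' - W z') := by
    intro z' hz'
    have h4 : ∑ j, χ j z' • (Term n q g E0 (T j) (S j) c z' - W z') =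
        Fl n q K g E0 T S χ c z' - W z' := by
      simp_rw [smul_sub, Finset.sum_sub_distrib, ← Finset.sum_smul, (key z' hz').1.2.1, one_smul]
      rfl
    rw [h4, smul_sub, sub_smul, sub_smul, one_smul, one_smul]
    abel
  obtain ⟨⟨k1, k2, k3⟩, k4⟩ := key z hz23
  have hs1' : 0 ≤ 1 - s := by linarith
  refine hp (fun z => (1 - s) • Fl n q K g E0 T S χ c z + s • W z) z hz1 ?_ ?_ ?_
  · filter_upwards [hnear] with z' hz'
    obtain ⟨⟨l1, l2, l3⟩, l4⟩ := key z' hz'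
    refine ContDiffAt.add (ContDiffAt.const_smul _ ?_) (ContDiffAt.const_smul _ l3)
    unfold Fl
    exact ContDiffAt.sum fun j _ => (l1 j).1.1.smul (l4 j).1
  · rw [hdiff z hz23, add_sub_cancel_left, norm_smul, Real.norm_eq_abs, abs_of_nonneg hs1']
    have h5 : ‖∑ j, χ j z • (Term n q g E0 (T j) (S j) c z - W z)‖ ≤ δ' := by
      calc ‖∑ j, χ j z • (Term n q g E0 (T j) (S j) c z - W z)‖
          ≤ ∑ j, ‖χ j z • (Term n q g E0 (T j) (S j) c z - W z)‖ := norm_sum_le _ _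
        _ ≤ ∑ j, χ j z * δ' := by
            refine Finset.sum_le_sum fun j _ => ?_
            rw [norm_smul, Real.norm_eq_abs, abs_of_nonneg (k1 j).1.2]
            exact mul_le_mul_of_nonneg_left (k4 j).2.1 (k1 j).1.2
        _ = δ' := by rw [← Finset.sum_mul, k2, one_mul]
    have h6 : δ' ≤ δ := by
      rw [hδ']
      exact div_le_self hδ.le (by linarith)
    nlinarith [norm_nonneg (∑ j, χ j z • (Term n q g E0 (T j) (S j) c z - W z))]
  · have hj : ∀ j, HasFDerivAt (fun z' => χ j z' • (Term n q g E0 (T j) (S j) c z' - W z'))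
        (χ j z • (fderiv ℝ (Term n q g E0 (T j) (S j) c) z - fderiv ℝ W z) +
          (fderiv ℝ (χ j) z).smulRight (Term n q g E0 (T j) (S j) c z - W z)) z := by
      intro j
      have a1 := ((k1 j).1.1.differentiableAt (by simp)).hasFDerivAt
      have a2 := ((k4 j).1.differentiableAt (by simp)).hasFDerivAt
      have a3 := (k3.differentiableAt (by simp)).hasFDerivAt
      exact a1.smul (a2.sub a3)
    have hsum : HasFDerivAt (fun z' => ∑ j, χ j z' • (Term n q g E0 (T j) (S j) c z' - W z'))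
        (∑ j, (χ j z • (fderiv ℝ (Term n q g E0 (T j) (S j) c) z - fderiv ℝ W z) +
          (fderiv ℝ (χ j) z).smulRight (Term n q g E0 (T j) (S j) c z - W z))) z :=
      HasFDerivAt.fun_sum fun j _ => hj j
    have hH : HasFDerivAt (fun z' => (1 - s) • Fl n q K g E0 T S χ c z' + s • W z')
        (fderiv ℝ W z + (1 - s) •
        (∑ j, (χ j z • (fderiv ℝ (Term n q g E0 (T j) (S j) c) z - fderiv ℝ W z) +
          (fderiv ℝ (χ j) z).smulRight (Term n q g E0 (T j) (S j) c z - W z)))) z := by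
      have a3 := (k3.differentiableAt (by simp)).hasFDerivAt
      refine (a3.add (hsum.const_smul (1 - s))).congr_of_eventuallyEq ?_
      filter_upwards [hnear] with z' hz'
      exact hdiff z' hz'
    rw [hH.fderiv, add_sub_cancel_left, norm_smul, Real.norm_eq_abs, abs_of_nonneg hs1']
    have h5 : ‖∑ j, (χ j z • (fderiv ℝ (Term n q g E0 (T j) (S j) c) z - fderiv ℝ W z) +
          (fderiv ℝ (χ j) z).smulRight (Term n q g E0 (T j) (S j) c z - W z))‖ ≤ δ := by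
      calc ‖∑ j, (χ j z • (fderiv ℝ (Term n q g E0 (T j) (S j) c) z - fderiv ℝ W z) +
            (fderiv ℝ (χ j) z).smulRight (Term n q g E0 (T j) (S j) c z - W z))‖
          ≤ ∑ j, ‖χ j z • (fderiv ℝ (Term n q g E0 (T j) (S j) c) z - fderiv ℝ W z) +
            (fderiv ℝ (χ j) z).smulRight (Term n q g E0 (T j) (S j) c z - W z)‖ :=
            norm_sum_le _ _
        _ ≤ ∑ j, (χ j z * δ' + M j * δ') := by
            refine Finset.sum_le_sum fun j _ => (norm_add_le _ _).trans (add_le_add ?_ ?_)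
            · rw [norm_smul, Real.norm_eq_abs, abs_of_nonneg (k1 j).1.2]
              exact mul_le_mul_of_nonneg_left (k4 j).2.2 (k1 j).1.2
            · rw [ContinuousLinearMap.norm_smulRight_apply]
              exact mul_le_mul (k1 j).2.le (k4 j).2.1 (norm_nonneg _) (hM0 j)
        _ = (1 + ∑ j, M j) * δ' := by
            rw [Finset.sum_add_distrib, ← Finset.sum_mul, ← Finset.sum_mul, k2]
            ring
        _ = δ := by
            rw [hδ']
            field_simp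
    nlinarith [norm_nonneg (∑ j, (χ j z • (fderiv ℝ (Term n q g E0 (T j) (S j) c) z -
      fderiv ℝ W z) + (fderiv ℝ (χ j) z).smulRight (Term n q g E0 (T j) (S j) c z - W z)))]

end Pool.Agent.Y678.NA
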