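import Pool.Agent.Y678.NA.P3

/-!
# Project NP, the assembly for paths: the local statement
-/

set_option autoImplicit false

open Set Filter Topology Metric Function MeasureTheory
open scoped Manifold ContDiff

noncomputable section

namespace Pool.Agent.Y678.NA

open Pool.Agent.Y522 Pool.Agent.Y522.NA Pool.Agent.Y306.NAG

/-- the conclusion of `StLocP` for given constants -/
def LocPC (n : ℕ) (κ ε : ℝ) : Prop :=
  ∀ (q K : ℕ) (g : ℝ → E n → E n) (t₀ : ℝ) (E0 : E n → E q)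
    (Ψ : E q → E n) (T S : Fin K → E n → E n) (y : Fin K → E n) (χ : Fin K → E n → ℝ),
    (∀ᶠ w in 𝓝 (t₀, (0 : E n)), ContinuousAt (fun w : ℝ × E n => g w.1 w.2) w) →
    (∃ ρ : ℝ, 0 < ρ ∧ ∀ᶠ t in 𝓝 t₀, NAff n ε ρ (g t)) →
    (∀ᶠ w in 𝓝 (g t₀ 0), ContDiffAt ℝ ∞ E0 w) →
    (∀ᶠ w in 𝓝 (E0 (g t₀ 0)), ContDiffAt ℝ ∞ Ψ w) →
    (∀ᶠ w in 𝓝 (g t₀ 0), Ψ (E0 w) = w) → (∀ j, Trans n κ (T j) (S j) (y j)) →
    (∀ j, ∀ᶠ z in 𝓝 (0 : E n), ContDiffAt ℝ ∞ (χ j) z ∧ 0 ≤ χ j z) →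
    (∀ᶠ z in 𝓝 (0 : E n), ∑ j, χ j z = 1) →
    ∃ ρ c₀ : ℝ, 0 < ρ ∧ 0 < c₀ ∧ ∀ t : ℝ, |t - t₀| < ρ → ∀ z : E n, ‖z‖ < ρ → ∀ c : ℝ, 0 < c →
      c ≤ c₀ → ContDiffAt ℝ ∞ (Fl n q K (g t) E0 T S χ c) z ∧
      LD n (fun z => Ψ (Fl n q K (g t) E0 T S χ c z)) z

/-- the blend of the mollification and of the map -/
def GG (a : ℝ → ℝ) (n q K : ℕ) {X Y : Type} (f : ℝ → X → Y) (e : Y → E q)
    (A : Fin K → E n → X) (τ : Fin K → X → E n) (χ : Fin K → X → ℝ) (c t : ℝ) (x : X) : E q :=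
  (1 - a t) • FF n q K (f t) e A τ χ c x + a t • e (f t x)

theorem near_of {n : ℕ} {P : ℝ × E n → Prop} {t₀ : ℝ} (h : ∀ᶠ w in 𝓝 (t₀, (0 : E n)), P w) :
    ∃ ρ : ℝ, 0 < ρ ∧ ∀ t : ℝ, |t - t₀| < ρ → ∀ z : E n, ‖z‖ < ρ → P (t, z) := by
  obtain ⟨ρ, hρ, h1⟩ := Metric.eventually_nhds_iff.1 h
  refine ⟨ρ, hρ, fun t ht z hz => h1 ?_⟩
  rw [Prod.dist_eq]
  refine max_lt ?_ ?_
  · simpa [Real.dist_eq] using ht
  · simpa using hz

theorem near_open {n : ℕ} {t₀ t ρ : ℝ} {z : E n} (ht : |t - t₀| < ρ) (hz : ‖z‖ < ρ) :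
    ∀ᶠ w : ℝ × E n in 𝓝 (t, z), |w.1 - t₀| < ρ ∧ ‖w.2‖ < ρ := by
  have h1 : ContinuousAt (fun w : ℝ × E n => |w.1 - t₀|) (t, z) := by
    have : Continuous (fun w : ℝ × E n => |w.1 - t₀|) := by fun_prop
    exact this.continuousAt
  have h2 : ContinuousAt (fun w : ℝ × E n => ‖w.2‖) (t, z) := by
    have : Continuous (fun w : ℝ × E n => ‖w.2‖) := by fun_prop
    exact this.continuousAt
  exact (h1.eventually_lt continuousAt_const ht).and (h2.eventually_lt continuousAt_const hz)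

theorem locX {n : ℕ} {κ ε : ℝ} (hL : LocPC n (κ ^ 2) ε) (hJ : StJC) (hE : StEnd) {X : Type}
    [MetricSpace X] [ChartedSpace (E n) X] [CompactSpace X] {Y : Type} [TopologicalSpace Y]
    [ChartedSpace (E n) Y] {q : ℕ} {e : Y → E q} {π : E q → Y} (hT : Tub n q Y e π)
    {f : ℝ → X → Y} (hf : Continuous (fun w : ℝ × X => f w.1 w.2))
    {K : ℕ} {A : Fin K → E n → X} {τ : Fin K → X → E n}
    {r : Fin K → ℝ} (hC : ∀ j, Ch n κ (A j) (τ j) (r j)) {χ : Fin K → X → ℝ}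
    (hχs : ∀ j, ContMDiff (𝓡 n) 𝓘(ℝ, ℝ) ∞ (χ j))
    (hχ0 : ∀ j x, 0 ≤ χ j x) (hχ1 : ∀ x, ∑ j, χ j x = 1)
    (hχt : ∀ j, tsupport (χ j) ⊆ A j '' ball 0 (r j / 2))
    {a : ℝ → ℝ} (ha : Continuous a) (ha0 : ∀ t, 0 ≤ a t) (ha1 : ∀ t, a t ≤ 1)
    (hcl : ∀ δ : ℝ, 0 < δ → ∃ c₂ : ℝ, 0 < c₂ ∧ ∀ c : ℝ, 0 < c → c ≤ c₂ → ∀ t x,
      ‖GG a n q K f e A τ χ c t x - e (f t x)‖ ≤ δ)
    (t₀ : ℝ) (x : X) (hx : NAffAtP n κ ε f t₀ x)
    (hcase : (∀ᶠ t in 𝓝 t₀, a t = 0) ∨ ((∀ᶠ t in 𝓝 t₀, f t = f t₀) ∧ LD n (f t₀) x)) :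
    ∃ U ∈ 𝓝 (t₀, x), ∃ c₀ : ℝ, 0 < c₀ ∧ ∀ p ∈ U, ∀ c : ℝ, 0 < c → c ≤ c₀ →
      C1At n q (GG a n q K f e A τ χ c) p.1 p.2 ∧
      LD n (fun x => π (GG a n q K f e A τ χ c p.1 x)) p.2 := by
  obtain ⟨A₀, B, rfl, hA₀, hB, ρ, hρ, hl, hn⟩ := hx
  obtain ⟨α, r₀, hr₀, h₀⟩ := exists_ch hA₀ hρ hl
  obtain ⟨b, hb, hbf, hbB, hBb⟩ := hB.exists_inverse
  have h00 : ‖(0 : E n)‖ < r₀ := by simpa using h₀.pos
  have hnear : ∀ᶠ z : E n in 𝓝 (0 : E n), ‖z‖ < r₀ :=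
    continuous_norm.continuousAt.eventually_lt continuousAt_const h00
  have he : Continuous e := hT.smooth.continuous
  have hfAc : ∀ w : ℝ × E n, ‖w.2‖ < r₀ →
      ContinuousAt (fun w : ℝ × E n => f w.1 (A₀ w.2)) w := by
    intro w hw
    have h8 : ContinuousAt (fun p : ℝ × E n => ((p.1, A₀ p.2) : ℝ × X)) w := by
      refine continuousAt_fst.prodMk ?_
      exact ContinuousAt.comp (f := fun p : ℝ × E n => p.2) (x := w) (h₀.continuousAt hw)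
        continuousAt_snd
    exact ContinuousAt.comp (f := fun p : ℝ × E n => ((p.1, A₀ p.2) : ℝ × X))
      hf.continuousAt h8
  have hfA : ContinuousAt (fun w : ℝ × E n => f w.1 (A₀ w.2)) (t₀, 0) := hfAc (t₀, 0) h00
  have hfAt : Tendsto (fun w : ℝ × E n => f w.1 (A₀ w.2)) (𝓝 (t₀, 0)) (𝓝 (f t₀ (A₀ 0))) := hfA
  have hπc : ContinuousAt π (e (f t₀ (A₀ 0))) :=
    (hT.retr (f t₀ (A₀ 0))).self_of_nhds.continuousAt
  have hπt : Tendsto π (𝓝 (e (f t₀ (A₀ 0)))) (𝓝 (f t₀ (A₀ 0))) := by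
    have h1 := hπc.tendsto
    rwa [hT.inv] at h1
  -- the data of the local theorem
  set g : ℝ → E n → E n := fun t z => B (f t (A₀ z)) with hg
  set E0 : E n → E q := fun w => e (b w) with hE0
  set Ψ : E q → E n := fun w => B (π w) with hΨ
  have hg0 : g t₀ 0 = B (f t₀ (A₀ 0)) := rfl
  have hE0g : E0 (g t₀ 0) = e (f t₀ (A₀ 0)) := by rw [hE0, hg0]; simp only [hbf]
  have ca : ∀ᶠ w in 𝓝 (t₀, (0 : E n)), ContinuousAt (fun w : ℝ × E n => g w.1 w.2) w := by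
    have h1 : ∀ᶠ w in 𝓝 (t₀, (0 : E n)), LD n B (f w.1 (A₀ w.2)) :=
      hfAt.eventually hB.eventually
    filter_upwards [tendsto_snd'.eventually hnear, h1] with w hz hz'
    exact ContinuousAt.comp (f := fun w : ℝ × E n => f w.1 (A₀ w.2)) hz'.continuousAt
      (hfAc w hz)
  have cb : ∃ ρ : ℝ, 0 < ρ ∧ ∀ᶠ t in 𝓝 t₀, NAff n ε ρ (g t) := by
    refine ⟨ρ, hρ, ?_⟩
    filter_upwards [Metric.ball_mem_nhds t₀ hρ] with t ht
    refine hn t ?_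
    rwa [mem_ball, Real.dist_eq] at ht
  have cc : ∀ᶠ w in 𝓝 (g t₀ 0), ContDiffAt ℝ ∞ E0 w := by
    filter_upwards [hb.eventually] with w hw
    refine contMDiffAt_iff_contDiffAt.1 ?_
    exact hT.smooth.contMDiffAt.comp w hw.contMDiffAt
  have cd : ∀ᶠ w in 𝓝 (E0 (g t₀ 0)), ContDiffAt ℝ ∞ Ψ w := by
    rw [hE0g]
    filter_upwards [hT.retr (f t₀ (A₀ 0)), hπt.eventually hB.eventually] with w hw hw'
    refine contMDiffAt_iff_contDiffAt.1 ?_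
    exact hw'.contMDiffAt.comp w hw
  have ce : ∀ᶠ w in 𝓝 (g t₀ 0), Ψ (E0 w) = w := by
    filter_upwards [hBb] with w hw
    simp only [hΨ, hE0, hT.inv, hw]
  -- transition maps
  classical
  set J : Fin K → Prop := fun j => A₀ 0 ∈ tsupport (χ j) with hJd
  set T : Fin K → E n → E n := fun j => if J j then (fun z => τ j (A₀ z)) else (fun z => z) with hTd
  set S : Fin K → E n → E n := fun j => if J j then (fun w => α (A j w)) else (fun z => z) with hSd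
  set y : Fin K → E n := fun j => if J j then τ j (A₀ 0) else 0 with hyd
  set χ' : Fin K → E n → ℝ := fun j z => χ j (A₀ z) with hχ'
  have hmem : ∀ j, J j → A₀ 0 ∈ A j '' ball 0 (r j) := by
    intro j hj
    obtain ⟨z, hz, hzx⟩ := hχt j hj
    have hrp := (hC j).pos
    refine ⟨z, ?_, hzx⟩
    rw [mem_ball_zero_iff] at hz ⊢
    linarith
  have cf : ∀ j, Trans n (κ ^ 2) (T j) (S j) (y j) := by
    intro j
    by_cases hj : J j
    · simp only [hTd, hSd, hyd, if_pos hj]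
      exact h₀.trans (hC j) (hmem j hj)
    · simp only [hTd, hSd, hyd, if_neg hj]
      exact h₀.trans_id
  have cg : ∀ j, ∀ᶠ z in 𝓝 (0 : E n), ContDiffAt ℝ ∞ (χ' j) z ∧ 0 ≤ χ' j z := by
    intro j
    filter_upwards [hnear] with z hz
    refine ⟨?_, hχ0 _ _⟩
    refine contMDiffAt_iff_contDiffAt.1 ?_
    exact (hχs j).contMDiffAt.comp z (h₀.ld z hz).contMDiffAt
  have ch : ∀ᶠ z in 𝓝 (0 : E n), ∑ j, χ' j z = 1 := Eventually.of_forall fun z => hχ1 (A₀ z)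
  -- the two cases
  have hW : ∃ W : E n → E q, (∀ᶠ z in 𝓝 (0 : E n), ContDiffAt ℝ ∞ W z) ∧
      (∀ᶠ w : ℝ × E n in 𝓝 (t₀, 0), a w.1 • e (f w.1 (A₀ w.2)) = a w.1 • W w.2) ∧
      ∃ ρ₁ c₁ : ℝ, 0 < ρ₁ ∧ 0 < c₁ ∧ ∀ t : ℝ, |t - t₀| < ρ₁ → ∀ z : E n, ‖z‖ < ρ₁ →
        ∀ c : ℝ, 0 < c → c ≤ c₁ →
          LD n (fun z => Ψ ((1 - a t) • Fl n q K (g t) E0 T S χ' c z + a t • W z)) z := by
    rcases hcase with hc0 | ⟨hc1, hc2⟩
    · obtain ⟨ρ₁, c₁, hρ₁, hc₁, hL1⟩ := hL q K g t₀ E0 Ψ T S y χ' ca cb cc cd ce cf cg ch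
      obtain ⟨ρ₂, hρ₂, h2⟩ := Metric.eventually_nhds_iff.1 hc0
      refine ⟨fun _ => 0, Eventually.of_forall fun _ => contDiffAt_const, ?_, min ρ₁ ρ₂, c₁,
        lt_min hρ₁ hρ₂, hc₁, ?_⟩
      · filter_upwards [tendsto_fst'.eventually hc0] with w hw
        rw [hw, zero_smul, zero_smul]
      · intro t ht z hz c hc hcc
        have h3 : a t = 0 := h2 (by
          rw [Real.dist_eq]
          exact lt_of_lt_of_le ht (min_le_right _ _))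
        have h4 := (hL1 t (lt_of_lt_of_le ht (min_le_left _ _)) z
          (lt_of_lt_of_le hz (min_le_left _ _)) c hc hcc).2
        rw [h3]
        simpa using h4
    · have hgLD : LD n (g t₀) 0 := LD.comp_fun (g := B) hB (LD.comp_fun (g := f t₀) hc2 hA₀)
      obtain ⟨h1, ρ₁, c₁, hρ₁, hc₁, h2⟩ := end_loc hE hgLD cc cd ce cf cg ch
      obtain ⟨ρ₂, hρ₂, h3⟩ := Metric.eventually_nhds_iff.1 hc1
      refine ⟨fun z => E0 (g t₀ z), h1, ?_, min ρ₁ ρ₂, c₁, lt_min hρ₁ hρ₂, hc₁, ?_⟩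
      · have h4 : ∀ᶠ w : ℝ × E n in 𝓝 (t₀, 0), b (B (f w.1 (A₀ w.2))) = f w.1 (A₀ w.2) :=
          hfAt.eventually hbB
        filter_upwards [tendsto_fst'.eventually hc1, h4] with w hw hw'
        simp only [hE0, hg]
        rw [hw] at hw' ⊢
        rw [hw']
      · intro t ht z hz c hc hcc
        have h4 : f t = f t₀ := h3 (by
          rw [Real.dist_eq]
          exact lt_of_lt_of_le ht (min_le_right _ _))
        have h5 : g t = g t₀ := by simp only [hg, h4]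
        rw [h5]
        exact h2 (a t) (ha0 t) (ha1 t) z (lt_of_lt_of_le hz (min_le_left _ _)) c hc hcc
  obtain ⟨W, hW1, hW2, ρ₁, c₁, hρ₁, hc₁, hW3⟩ := hW
  -- the local form of the mollification
  have hterm : ∀ j, ∃ ρ' : ℝ, 0 < ρ' ∧ ∀ t : ℝ, |t - t₀| < ρ' → ∀ z : E n, ‖z‖ < ρ' →
      ∀ c : ℝ, 0 < c → c ≤ ρ' →
      χ j (A₀ z) • TermX n q (f t) e (A j) (τ j) c (A₀ z) =
        χ j (A₀ z) • Term n q (g t) E0 (T j) (S j) c z := by
    intro j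
    by_cases hj : J j
    · obtain ⟨ρ', hρ', h1⟩ := term_eqP (e := e) (q := q) hf h₀ (hC j) (hmem j hj) (B := B)
        (b := b) hbB
      refine ⟨ρ', hρ', fun t ht z hz c hc hcc => ?_⟩
      rw [h1 t ht z hz c hc hcc]
      simp only [hTd, hSd, if_pos hj]
      rfl
    · have h1 : ∀ᶠ z in 𝓝 (0 : E n), A₀ z ∉ tsupport (χ j) :=
        (h₀.continuousAt h00).eventually_mem ((isClosed_tsupport (χ j)).isOpen_compl.mem_nhds hj)
      obtain ⟨ρ', hρ', h2⟩ := Metric.eventually_nhds_iff.1 h1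
      refine ⟨ρ', hρ', fun t ht z hz c hc hcc => ?_⟩
      have h3 : χ j (A₀ z) = 0 := image_eq_zero_of_notMem_tsupport
        (h2 (by rwa [dist_zero_right]))
      rw [h3, zero_smul, zero_smul]
  choose ρj hρj htj using hterm
  obtain ⟨ρ₂, hρ₂, hρ₂j⟩ := exists_min ρj hρj
  obtain ⟨ρ₃, hρ₃, h3⟩ := near_of hW2
  have hGG : ∀ t : ℝ, |t - t₀| < min ρ₂ ρ₃ → ∀ z : E n, ‖z‖ < min ρ₂ ρ₃ → ∀ c : ℝ, 0 < c →
      c ≤ ρ₂ → GG a n q K f e A τ χ c t (A₀ z) =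
      (1 - a t) • Fl n q K (g t) E0 T S χ' c z + a t • W z := by
    intro t ht z hz c hc hcc
    have ht2 : |t - t₀| < ρ₂ := lt_of_lt_of_le ht (min_le_left _ _)
    have hz2 : ‖z‖ < ρ₂ := lt_of_lt_of_le hz (min_le_left _ _)
    unfold GG
    rw [h3 t (lt_of_lt_of_le ht (min_le_right _ _)) z (lt_of_lt_of_le hz (min_le_right _ _))]
    congr 2
    unfold FF Fl
    exact Finset.sum_congr rfl fun j _ =>
      htj j t (lt_of_lt_of_le ht2 (hρ₂j j)) z (lt_of_lt_of_le hz2 (hρ₂j j)) c hc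
        (hcc.trans (hρ₂j j))
  -- joint continuity
  have hJ' := fun j => hJ n q (κ ^ 2) g t₀ E0 (T j) (S j) (y j) ca cc (cf j)
  choose ρ' c' hρ' hc' hJ' using hJ'
  obtain ⟨ρ₄, hρ₄, hρ₄j⟩ := exists_min ρ' hρ'
  obtain ⟨c₄, hc₄, hc₄j⟩ := exists_min c' hc'
  have hev5 : ∀ᶠ z in 𝓝 (0 : E n), (∀ᶠ z' in 𝓝 z, ContDiffAt ℝ ∞ W z') ∧
      ∀ j, ∀ᶠ z' in 𝓝 z, ContDiffAt ℝ ∞ (χ' j) z' :=
    hW1.eventually_nhds.and (eventually_all.2 fun j =>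
      (cg j).eventually_nhds.mono fun z hz => hz.mono fun z' hz' => hz'.1)
  obtain ⟨ρ₅, hρ₅, h5⟩ := Metric.eventually_nhds_iff.1 hev5
  have hJCD : ∀ t : ℝ, |t - t₀| < min ρ₄ ρ₅ → ∀ z : E n, ‖z‖ < min ρ₄ ρ₅ → ∀ c : ℝ, 0 < c →
      c ≤ c₄ → JCD (fun t z => (1 - a t) • Fl n q K (g t) E0 T S χ' c z + a t • W z) t z := by
    intro t ht z hz c hc hcc
    obtain ⟨k1, k2⟩ := h5 (y := z) (by
      rw [dist_zero_right]
      exact lt_of_lt_of_le hz (min_le_right _ _))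
    have hopen := near_open (lt_of_lt_of_le ht (min_le_left _ _))
      (lt_of_lt_of_le hz (min_le_left _ _))
    have kj : ∀ j, JCD (fun t z => χ' j z • Term n q (g t) E0 (T j) (S j) c z) t z := by
      intro j
      refine JCD.smulχ (F := fun t z => Term n q (g t) E0 (T j) (S j) c z) ?_ (k2 j)
      obtain ⟨m1, m2, m3⟩ := hJ' j t (lt_of_lt_of_le ht ((min_le_left _ _).trans (hρ₄j j))) z
        (lt_of_lt_of_le hz ((min_le_left _ _).trans (hρ₄j j))) c hc (hcc.trans (hc₄j j))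
      refine ⟨?_, m2, m3⟩
      filter_upwards [hopen] with w hw
      exact (hJ' j w.1 (lt_of_lt_of_le hw.1 (hρ₄j j)) w.2 (lt_of_lt_of_le hw.2 (hρ₄j j)) c hc
        (hcc.trans (hc₄j j))).1
    have ksum : JCD (fun t z => Fl n q K (g t) E0 T S χ' c z) t z := JCD.sum kj
    exact JCD.add (JCD.smula ksum (a := fun t => 1 - a t) (by fun_prop))
      (JCD.smula (JCD.const k1) ha)
  -- near the point `e (f x)`
  have hP : ∀ᶠ w in 𝓝 (e (f t₀ (A₀ 0))), LD n b (B (π w)) ∧ b (B (π w)) = π w := by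
    have h1 : Tendsto (fun w => B (π w)) (𝓝 (e (f t₀ (A₀ 0)))) (𝓝 (B (f t₀ (A₀ 0)))) :=
      hB.continuousAt.tendsto.comp hπt
    exact (h1.eventually hb.eventually).and (hπt.eventually hbB)
  obtain ⟨δ, hδ, hPδ⟩ := Metric.eventually_nhds_iff.1 hP
  obtain ⟨c₂, hc₂, hclose⟩ := hcl (δ / 2) (half_pos hδ)
  -- the neighbourhood
  have hα0 : α (A₀ 0) = 0 := h₀.inv 0 h00
  have hαc : ContinuousAt α (A₀ 0) := (h₀.ldτ h00).continuousAt
  set R : ℝ := min (min ρ₁ (min ρ₂ ρ₃)) (min (min ρ₄ ρ₅) r₀) with hR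
  have hRpos : 0 < R :=
    lt_min (lt_min hρ₁ (lt_min hρ₂ hρ₃)) (lt_min (lt_min hρ₄ hρ₅) h₀.pos)
  have hR1 : R ≤ ρ₁ := (min_le_left _ _).trans (min_le_left _ _)
  have hR2 : R ≤ min ρ₂ ρ₃ := (min_le_left _ _).trans (min_le_right _ _)
  have hR3 : R ≤ min ρ₄ ρ₅ := (min_le_right _ _).trans (min_le_left _ _)
  have hR4 : R ≤ r₀ := (min_le_right _ _).trans (min_le_right _ _)
  have hV : ∀ᶠ p : ℝ × X in 𝓝 (t₀, A₀ 0), ‖e (f p.1 p.2) - e (f t₀ (A₀ 0))‖ < δ / 2 ∧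
      |p.1 - t₀| < R ∧ ‖α p.2‖ < R ∧ A₀ (α p.2) = p.2 ∧ LD n α p.2 := by
    have h1 : ∀ᶠ p : ℝ × X in 𝓝 (t₀, A₀ 0), ‖e (f p.1 p.2) - e (f t₀ (A₀ 0))‖ < δ / 2 := by
      have h2 : ContinuousAt (fun p : ℝ × X => ‖e (f p.1 p.2) - e (f t₀ (A₀ 0))‖)
          (t₀, A₀ 0) := by
        have h3 : Continuous (fun p : ℝ × X => ‖e (f p.1 p.2) - e (f t₀ (A₀ 0))‖) :=
          ((he.comp hf).sub continuous_const).norm
        exact h3.continuousAt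
      refine h2.eventually_lt continuousAt_const ?_
      simpa using half_pos hδ
    have h1' : ∀ᶠ p : ℝ × X in 𝓝 (t₀, A₀ 0), |p.1 - t₀| < R := by
      have h2 : ContinuousAt (fun p : ℝ × X => |p.1 - t₀|) (t₀, A₀ 0) := by
        have h3 : Continuous (fun p : ℝ × X => |p.1 - t₀|) := by fun_prop
        exact h3.continuousAt
      refine h2.eventually_lt continuousAt_const ?_
      simpa using hRpos
    have hs : Tendsto (fun p : ℝ × X => p.2) (𝓝 (t₀, A₀ 0)) (𝓝 (A₀ 0)) :=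
      continuous_snd.continuousAt (x := (t₀, A₀ 0))
    have h2 : ∀ᶠ x' in 𝓝 (A₀ 0), ‖α x'‖ < R := by
      refine hαc.norm.eventually_lt continuousAt_const ?_
      rw [hα0, norm_zero]
      exact hRpos
    have h3 : ∀ᶠ x' in 𝓝 (A₀ 0), A₀ (α x') = x' := by
      filter_upwards [(h₀.isOpen_image le_rfl).mem_nhds ⟨0, mem_ball_zero_iff.2 h00, rfl⟩]
        with x' hx'
      exact h₀.right hx'
    filter_upwards [h1, h1', hs.eventually h2, hs.eventually h3,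
      hs.eventually (h₀.ldτ h00).eventually] with p a1 a2 a3 a4 a5
    exact ⟨a1, a2, a3, a4, a5⟩
  refine ⟨_, hV.eventually_nhds, min (min c₁ ρ₂) (min c₂ c₄),
    lt_min (lt_min hc₁ hρ₂) (lt_min hc₂ hc₄), ?_⟩
  rintro ⟨t, x'⟩ hx' c hc hcc
  have hcc1 : c ≤ c₁ := hcc.trans ((min_le_left _ _).trans (min_le_left _ _))
  have hcc2 : c ≤ ρ₂ := hcc.trans ((min_le_left _ _).trans (min_le_right _ _))
  have hcc3 : c ≤ c₂ := hcc.trans ((min_le_right _ _).trans (min_le_left _ _))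
  have hcc4 : c ≤ c₄ := hcc.trans ((min_le_right _ _).trans (min_le_right _ _))
  have hx1 : ∀ᶠ p : ℝ × X in 𝓝 (t, x'), ‖e (f p.1 p.2) - e (f t₀ (A₀ 0))‖ < δ / 2 ∧
      |p.1 - t₀| < R ∧ ‖α p.2‖ < R ∧ A₀ (α p.2) = p.2 ∧ LD n α p.2 := hx'
  have hx'' : ∀ᶠ x'' in 𝓝 x', ‖e (f t x'') - e (f t₀ (A₀ 0))‖ < δ / 2 ∧
      |t - t₀| < R ∧ ‖α x''‖ < R ∧ A₀ (α x'') = x'' ∧ LD n α x'' := by
    have h1 : Tendsto (fun x'' : X => ((t, x'') : ℝ × X)) (𝓝 x') (𝓝 (t, x')) := by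
      have : Continuous (fun x'' : X => ((t, x'') : ℝ × X)) := by fun_prop
      exact this.continuousAt (x := x')
    exact h1.eventually hx1
  obtain ⟨h1, h2, h3, h4, h5'⟩ := hx''.self_of_nhds
  change C1At n q (GG a n q K f e A τ χ c) t x' ∧
      LD n (fun x => π (GG a n q K f e A τ χ c t x)) x'
  refine ⟨?_, ?_⟩
  · rw [← h4]
    refine C1At_of_JCD (z := α x') ?_ (h₀.ld _ (lt_of_lt_of_le h3 hR4))
    refine (hJCD t (lt_of_lt_of_le h2 hR3) (α x') (lt_of_lt_of_le h3 hR3) c hc hcc4).congr ?_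
    filter_upwards [near_open (lt_of_lt_of_le h2 hR2) (lt_of_lt_of_le h3 hR2)] with w hw
    exact hGG w.1 hw.1 w.2 hw.2 c hc hcc2
  · have hFeq : ∀ᶠ x'' in 𝓝 x', GG a n q K f e A τ χ c t x'' =
        (1 - a t) • Fl n q K (g t) E0 T S χ' c (α x'') + a t • W (α x'') := by
      filter_upwards [hx''] with x'' h1
      rw [← hGG t (lt_of_lt_of_le h1.2.1 hR2) (α x'') (lt_of_lt_of_le h1.2.2.1 hR2) c hc hcc2,
        h1.2.2.2.1]
    have hPx : ∀ᶠ x'' in 𝓝 x', LD n b (B (π (GG a n q K f e A τ χ c t x''))) ∧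
        b (B (π (GG a n q K f e A τ χ c t x''))) = π (GG a n q K f e A τ χ c t x'') := by
      filter_upwards [hx''] with x'' h1
      apply hPδ
      have h2 := hclose c hc hcc3 t x''
      have h3 := h1.1
      rw [dist_eq_norm]
      calc ‖GG a n q K f e A τ χ c t x'' - e (f t₀ (A₀ 0))‖
          = ‖(GG a n q K f e A τ χ c t x'' - e (f t x'')) +
            (e (f t x'') - e (f t₀ (A₀ 0)))‖ := by
            congr 1; abel
        _ ≤ ‖GG a n q K f e A τ χ c t x'' - e (f t x'')‖ +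
            ‖e (f t x'') - e (f t₀ (A₀ 0))‖ := norm_add_le _ _
        _ < δ := by linarith
    have h6 := hW3 t (lt_of_lt_of_le h2 hR1) (α x') (lt_of_lt_of_le h3 hR1) c hc hcc1
    have h7 : LD n (fun x'' => b (Ψ ((1 - a t) • Fl n q K (g t) E0 T S χ' c (α x'') +
        a t • W (α x'')))) x' := by
      refine LD.comp_fun (g := b) ?_ (LD.comp_fun (g := fun z =>
        Ψ ((1 - a t) • Fl n q K (g t) E0 T S χ' c z + a t • W z)) h6 h5')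
      have h8 := hPx.self_of_nhds.1
      rwa [hFeq.self_of_nhds] at h8
    refine h7.congr ?_
    filter_upwards [hFeq, hPx] with x'' h8 h9
    rw [← h8]
    exact h9.2.symm

end Pool.Agent.Y678.NA
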